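import Pool.Agent.J4H12.MX.Stm

set_option autoImplicit false

/-! # Project MX, (TAT): a special case of Tate's theorem -/

universe u

namespace Pool.Agent.J4H97.MX

open Pool.Agent.J4H12.MX

open scoped commutatorElement

/-- in a nilpotent group a nontrivial normal subgroup is not contained in its commutator with the group -/
theorem comm_ne {A : Type u} [Group A] [Group.IsNilpotent A] {Q : Subgroup A} [Q.Normal]
    (hQ : Q ≠ ⊥) : ¬ Q ≤ ⁅Q, (⊤ : Subgroup A)⁆ := by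
  intro h
  obtain ⟨n, hn⟩ := (Subgroup.nilpotent_iff_lowerCentralSeries (G := A)).1 inferInstance
  have h1 : ∀ k, Q ≤ (⊤ : Subgroup A).lowerCentralSeries k := by
    intro k
    induction k with
    | zero => exact le_top
    | succ k ih => exact h.trans (Subgroup.commutator_mono ih le_rfl)
  have := h1 n
  rw [hn] at this
  exact hQ (le_bot_iff.1 this)

/-- a central section of order `p` -/
theorem exists_M0 {A : Type u} [Group A] [Finite A] {p : ℕ} [Fact p.Prime] (hA : IsPGroup p A)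
    {Q : Subgroup A} [Q.Normal] (hQ : Q ≠ ⊥) :
    ∃ M : Subgroup A, ⁅Q, (⊤ : Subgroup A)⁆ ≤ M ∧ M ≤ Q ∧ M.relIndex Q = p := by
  have := hA.isNilpotent
  have hDQ : ⁅Q, (⊤ : Subgroup A)⁆ ≤ Q := Subgroup.commutator_le_left Q ⊤
  have hne := comm_ne hQ
  have hQp : IsPGroup p Q := hA.to_subgroup Q
  obtain ⟨a, ha⟩ := (IsPGroup.iff_card).1 hQp
  set D : Subgroup Q := (⁅Q, (⊤ : Subgroup A)⁆).subgroupOf Q with hD
  obtain ⟨b, hb⟩ := (IsPGroup.iff_card).1 (hQp.to_subgroup D)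
  have hDt : D ≠ ⊤ := by
    intro h
    rw [hD, Subgroup.subgroupOf_eq_top] at h
    exact hne h
  have hcard : D.index * Nat.card D = Nat.card Q := D.index_mul_card
  have hlt : Nat.card D < Nat.card Q := by
    refine lt_of_le_of_ne (Nat.le_of_dvd Nat.card_pos D.card_subgroup_dvd_card) ?_
    intro h
    exact hDt (Subgroup.eq_top_of_card_eq D h)
  have hp1 := (Fact.out : p.Prime).one_lt
  have hab : b < a := by
    rw [ha, hb] at hlt
    exact (Nat.pow_lt_pow_iff_right hp1).1 hlt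
  obtain ⟨K, hK, hDK⟩ := Sylow.exists_subgroup_card_pow_prime_le (G := Q) p (n := b) (m := a - 1)
    (by rw [ha]; exact pow_dvd_pow p (by omega)) D hb (by omega)
  refine ⟨K.map Q.subtype, ?_, Subgroup.map_subtype_le K, ?_⟩
  · intro x hx
    exact ⟨⟨x, hDQ hx⟩, hDK (Subgroup.mem_subgroupOf.2 hx), rfl⟩
  · have h1 : (K.map Q.subtype).subgroupOf Q = K :=
      Subgroup.comap_map_eq_self_of_injective Q.subtype_injective K
    rw [Subgroup.relIndex, h1]
    have h2 := K.index_mul_card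
    rw [hK, ha] at h2
    have h3 : p ^ a = p * p ^ (a - 1) := by
      rw [← pow_succ']
      congr 1
      omega
    rw [h3] at h2
    exact Nat.eq_of_mul_eq_mul_right (pow_pos (by omega) _) h2

section Main

variable {G : Type u} [Group G] [Finite G] {p : ℕ} [Fact p.Prime] {P K : Subgroup G} [K.Normal]

theorem coprime_eq_one {C : Type u} [Group C] {c : C} {a b : ℕ} (h : Nat.Coprime a b)
    (ha : c ^ a = 1) (hb : c ^ b = 1) : c = 1 := by
  rw [← orderOf_eq_one_iff]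
  exact Nat.eq_one_of_dvd_coprimes h (orderOf_dvd_of_pow_eq_one ha) (orderOf_dvd_of_pow_eq_one hb)

/-- the main step -/
theorem main (hP : IsPGroup p P) (hidx : ¬ p ∣ P.index)
    (hKgen : ∀ L : Subgroup K, (∀ x : K, ¬ p ∣ orderOf x → x ∈ L) → L = ⊤)
    (hM : ∀ M : Subgroup G, M ≤ P → M.relIndex P = p → Nz P M → K ⊓ P ≤ M) :
    K.subgroupOf P = ⊥ := by
  classical
  by_contra hQ
  set Q : Subgroup P := K.subgroupOf P with hQd
  obtain ⟨M0, hDM, hMQ, hMp⟩ := exists_M0 hP hQ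
  have hpp := (Fact.out : p.Prime)
  have hM0n : M0.Normal := by
    refine ⟨fun m hm g => ?_⟩
    have h1 : ⁅m, g⁆ ∈ M0 := hDM (Subgroup.commutator_mem_commutator (hMQ hm) (Subgroup.mem_top g))
    have h2 : g * m * g⁻¹ = ⁅m, g⁆⁻¹ * m := by
      rw [commutatorElement_def]
      group
    rw [h2]
    exact M0.mul_mem (M0.inv_mem h1) hm
  let β : P ⧸ M0 →* G ⧸ K := QuotientGroup.lift M0 ((QuotientGroup.mk' K).comp P.subtype) (by
    intro x hx
    have : (x : G) ∈ K := Subgroup.mem_subgroupOf.1 (hMQ hx)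
    exact (QuotientGroup.eq_one_iff (x : G)).2 this)
  have hβ : ∀ a : P, β (QuotientGroup.mk' M0 a) = QuotientGroup.mk' K (a : G) := fun a => rfl
  have hker : ∀ a : P, QuotientGroup.mk' M0 a ∈ β.ker ↔ (a : G) ∈ K := by
    intro a
    rw [MonoidHom.mem_ker, hβ]
    exact QuotientGroup.eq_one_iff (a : G)
  have hsurj := QuotientGroup.mk'_surjective M0
  have hcen : ∀ c ∈ β.ker, ∀ b : P ⧸ M0, c * b = b * c := by
    intro c hc b
    obtain ⟨a, rfl⟩ := hsurj c
    obtain ⟨g, rfl⟩ := hsurj b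
    have h1 : a ∈ Q := Subgroup.mem_subgroupOf.2 ((hker a).1 hc)
    have h2 : ⁅a, g⁆ ∈ M0 := hDM (Subgroup.commutator_mem_commutator h1 (Subgroup.mem_top g))
    have h3 : QuotientGroup.mk' M0 ⁅a, g⁆ = 1 := (QuotientGroup.eq_one_iff _).2 h2
    rw [map_commutatorElement, commutatorElement_eq_one_iff_mul_comm] at h3
    exact h3
  have hcardC : Nat.card β.ker = p := by
    have h1 : Q.map (QuotientGroup.mk' M0) = β.ker := by
      ext c
      constructor
      · rintro ⟨a, ha, rfl⟩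
        exact (hker a).2 (Subgroup.mem_subgroupOf.1 ha)
      · intro hc
        obtain ⟨a, rfl⟩ := hsurj c
        exact ⟨a, Subgroup.mem_subgroupOf.2 ((hker a).1 hc), rfl⟩
    have h2 := Subgroup.relIndex_ker (QuotientGroup.mk' M0) (K := Q)
    rw [QuotientGroup.ker_mk', hMp, h1] at h2
    exact h2.symm
  letI : CommGroup β.ker :=
    { (inferInstance : Group β.ker) with
      mul_comm := fun a b => Subtype.ext (hcen a.1 a.2 b.1) }
  let E : Subgroup (G × (P ⧸ M0)) := MonoidHom.eqLocus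
    ((QuotientGroup.mk' K).comp (MonoidHom.fst G (P ⧸ M0))) (β.comp (MonoidHom.snd G (P ⧸ M0)))
  have hE : ∀ (x : G) (b : P ⧸ M0), (x, b) ∈ E ↔ QuotientGroup.mk' K x = β b := fun x b => Iff.rfl
  let fs : E →* G := (MonoidHom.fst G (P ⧸ M0)).comp E.subtype
  let PE : Subgroup E := P.comap fs
  have hPEidx : ¬ p ∣ PE.index := by
    have h1 : PE.index = P.relIndex fs.range := Subgroup.index_comap P fs
    have h2 : P ≤ fs.range := by
      intro x hx
      exact ⟨⟨(x, QuotientGroup.mk' M0 ⟨x, hx⟩), (hE _ _).2 (hβ ⟨x, hx⟩).symm⟩, rfl⟩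
    have h3 := Subgroup.relIndex_mul_index h2
    rw [h1]
    intro h4
    apply hidx
    rw [← h3]
    exact h4.mul_right _
  let τ : PE →* β.ker :=
    { toFun := fun e => ⟨(QuotientGroup.mk' M0 ⟨e.1.1.1, e.2⟩)⁻¹ * e.1.1.2, by
        rw [MonoidHom.mem_ker, map_mul, map_inv, hβ]
        have h1 : QuotientGroup.mk' K e.1.1.1 = β e.1.1.2 := e.1.2
        rw [← h1]
        exact inv_mul_cancel _⟩
      map_one' := by
        apply Subtype.ext
        show (QuotientGroup.mk' M0 ⟨1, _⟩)⁻¹ * 1 = 1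
        rw [mul_one, inv_eq_one]
        exact map_one (QuotientGroup.mk' M0)
      map_mul' := by
        intro e e'
        apply Subtype.ext
        have h0 : ((QuotientGroup.mk' M0 ⟨e.1.1.1, e.2⟩)⁻¹ * e.1.1.2) ∈ β.ker := by
          rw [MonoidHom.mem_ker, map_mul, map_inv, hβ]
          have h1 : QuotientGroup.mk' K e.1.1.1 = β e.1.1.2 := e.1.2
          rw [← h1]
          exact inv_mul_cancel _
        show (QuotientGroup.mk' M0 (⟨e.1.1.1, e.2⟩ * ⟨e'.1.1.1, e'.2⟩))⁻¹ * (e.1.1.2 * e'.1.1.2)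
          = ((QuotientGroup.mk' M0 ⟨e.1.1.1, e.2⟩)⁻¹ * e.1.1.2) *
            ((QuotientGroup.mk' M0 ⟨e'.1.1.1, e'.2⟩)⁻¹ * e'.1.1.2)
        have h2 := hcen _ h0 (QuotientGroup.mk' M0 ⟨e'.1.1.1, e'.2⟩)⁻¹
        rw [map_mul, mul_inv_rev]
        calc _ = (QuotientGroup.mk' M0 ⟨e'.1.1.1, e'.2⟩)⁻¹ *
              ((QuotientGroup.mk' M0 ⟨e.1.1.1, e.2⟩)⁻¹ * e.1.1.2) * e'.1.1.2 := by group
          _ = ((QuotientGroup.mk' M0 ⟨e.1.1.1, e.2⟩)⁻¹ * e.1.1.2) *
              (QuotientGroup.mk' M0 ⟨e'.1.1.1, e'.2⟩)⁻¹ * e'.1.1.2 := by rw [h2]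
          _ = _ := by group }
  let T : E →* β.ker := MonoidHom.transfer τ
  set m := PE.index with hm
  have hpm : Nat.Coprime p m := (Nat.Prime.coprime_iff_not_dvd hpp).2 hPEidx
  have h1E : ∀ c ∈ β.ker, ((1 : G), c) ∈ E := fun c hc => by
    rw [hE, map_one]
    exact (MonoidHom.mem_ker.1 hc).symm
  have hT : ∀ (c : P ⧸ M0) (hc : c ∈ β.ker), T ⟨(1, c), h1E c hc⟩ = ⟨c, hc⟩ ^ m := by
    intro c hc
    have key : ∀ (k : ℕ) (g₀ : E), g₀⁻¹ * (⟨(1, c), h1E c hc⟩ : E) ^ k * g₀ ∈ PE →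
        g₀⁻¹ * (⟨(1, c), h1E c hc⟩ : E) ^ k * g₀ = (⟨(1, c), h1E c hc⟩ : E) ^ k := by
      intro k g₀ _
      have h2 : (⟨(1, c), h1E c hc⟩ : E) * g₀ = g₀ * ⟨(1, c), h1E c hc⟩ := by
        apply Subtype.ext
        apply Prod.ext
        · show 1 * g₀.1.1 = g₀.1.1 * 1
          rw [one_mul, mul_one]
        · exact hcen c hc _
      have h3 : Commute (⟨(1, c), h1E c hc⟩ : E) g₀ := h2
      rw [mul_assoc, (h3.pow_left k).eq, inv_mul_cancel_left]
    have h2 := MonoidHom.transfer_eq_pow τ (⟨(1, c), h1E c hc⟩ : E) key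
    have h3 : T ⟨(1, c), h1E c hc⟩ = MonoidHom.transfer τ ⟨(1, c), h1E c hc⟩ := rfl
    rw [h3, h2]
    apply Subtype.ext
    have h4 : ((⟨(1, c), h1E c hc⟩ : E) ^ PE.index).1 = ((1 : G), c ^ PE.index) := by
      rw [Subgroup.coe_pow]
      show ((1 : G), c) ^ PE.index = _
      rw [Prod.pow_mk, one_pow]
    show (QuotientGroup.mk' M0 ⟨((⟨(1, c), h1E c hc⟩ : E) ^ PE.index).1.1, _⟩)⁻¹ *
      ((⟨(1, c), h1E c hc⟩ : E) ^ PE.index).1.2 = _
    have h5 : ∀ (x : G × (P ⧸ M0)) (hx : x.1 ∈ P), x = ((1 : G), c ^ PE.index) →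
        (QuotientGroup.mk' M0 ⟨x.1, hx⟩)⁻¹ * x.2 = c ^ PE.index := by
      rintro x hx rfl
      have : (⟨1, hx⟩ : P) = 1 := rfl
      show (QuotientGroup.mk' M0 ⟨1, hx⟩)⁻¹ * c ^ PE.index = _
      rw [this, map_one, inv_one, one_mul]
    exact h5 _ _ h4
  let S : Subgroup (P ⧸ M0) := T.ker.map ((MonoidHom.snd G (P ⧸ M0)).comp E.subtype)
  have hSmem : ∀ b, b ∈ S ↔ ∃ (x : G) (h : (x, b) ∈ E), T ⟨(x, b), h⟩ = 1 := by
    intro b
    constructor
    · rintro ⟨e, he, rfl⟩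
      exact ⟨e.1.1, e.2, he⟩
    · rintro ⟨x, h, hx⟩
      exact ⟨⟨(x, b), h⟩, hx, rfl⟩
  have hSC : ∀ b : P ⧸ M0, ∃ s ∈ S, ∃ c ∈ β.ker, b = s * c := by
    intro b
    obtain ⟨a, rfl⟩ := hsurj b
    have he : ((a : G), QuotientGroup.mk' M0 a) ∈ E := (hE _ _).2 (hβ a).symm
    set t := T ⟨_, he⟩ with ht
    have hco : (Nat.card β.ker).Coprime m := by rw [hcardC]; exact hpm
    obtain ⟨c', hc'⟩ : ∃ c' : β.ker, c' ^ m = t⁻¹ := (powCoprime hco).surjective t⁻¹
    refine ⟨QuotientGroup.mk' M0 a * c'.1, ?_, c'.1⁻¹, β.ker.inv_mem c'.2, by group⟩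
    rw [hSmem]
    refine ⟨(a : G) * 1, E.mul_mem he (h1E c'.1 c'.2), ?_⟩
    have h3 : (⟨((a : G) * 1, QuotientGroup.mk' M0 a * c'.1), E.mul_mem he (h1E c'.1 c'.2)⟩ : E)
        = ⟨_, he⟩ * ⟨(1, c'.1), h1E c'.1 c'.2⟩ := rfl
    rw [h3, map_mul, hT c'.1 c'.2, ← ht]
    show t * c' ^ m = 1
    rw [hc', mul_inv_cancel]
  have hSn : S.Normal := by
    refine ⟨fun s hs b => ?_⟩
    obtain ⟨s', hs', c, hc, rfl⟩ := hSC b
    have h2 : s' * c * s * (s' * c)⁻¹ = s' * s * s'⁻¹ := by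
      rw [mul_assoc s' c s, hcen c hc s]
      group
    rw [h2]
    exact S.mul_mem (S.mul_mem hs' hs) (S.inv_mem hs')
  have hCS : β.ker ≤ S := by
    have h2 : S ⊔ β.ker = ⊤ := by
      rw [eq_top_iff]
      intro b _
      obtain ⟨s, hs, c, hc, rfl⟩ := hSC b
      exact Subgroup.mul_mem _ (Subgroup.mem_sup_left hs) (Subgroup.mem_sup_right hc)
    have h3 : S.index = S.relIndex β.ker := by
      have h5 := Subgroup.relIndex_sup_left β.ker S
      rw [h2, Subgroup.relIndex_top_right] at h5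
      exact h5
    have h4 : S.index ∣ p := by
      rw [h3, ← hcardC]
      exact Subgroup.relIndex_dvd_card S β.ker
    rcases (Nat.dvd_prime hpp).1 h4 with h5 | h5
    · rw [Subgroup.index_eq_one] at h5
      rw [h5]
      exact le_top
    · set M : Subgroup G := (S.comap (QuotientGroup.mk' M0)).map P.subtype with hMdef
      have h6 : M ≤ P := Subgroup.map_subtype_le _
      have h7 : M.relIndex P = p := by
        have h8 : M.subgroupOf P = S.comap (QuotientGroup.mk' M0) :=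
          Subgroup.comap_map_eq_self_of_injective P.subtype_injective _
        rw [Subgroup.relIndex, h8, Subgroup.index_comap_of_surjective _ hsurj, h5]
      have h8 : Nz P M := by
        rintro x hx _ ⟨y, hy, rfl⟩
        refine ⟨⟨x, hx⟩ * y * ⟨x, hx⟩⁻¹, ?_, rfl⟩
        show QuotientGroup.mk' M0 (⟨x, hx⟩ * y * ⟨x, hx⟩⁻¹) ∈ S
        rw [map_mul, map_mul, map_inv]
        exact hSn.conj_mem _ hy _
      have h9 := hM M h6 h7 h8
      intro c hc
      obtain ⟨a, rfl⟩ := hsurj c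
      obtain ⟨y, hy, hy2⟩ := h9 ⟨(hker a).1 hc, a.2⟩
      have h10 : y = a := Subtype.ext hy2
      rw [h10] at hy
      exact hy
  -- `K` maps trivially
  have hKE : ∀ x ∈ K, (x, (1 : P ⧸ M0)) ∈ E := fun x hx => by
    rw [hE, map_one]
    exact (QuotientGroup.eq_one_iff x).2 hx
  let ι : K →* E :=
    { toFun := fun x => ⟨(x.1, 1), hKE x.1 x.2⟩
      map_one' := rfl
      map_mul' := fun x y => by
        apply Subtype.ext
        apply Prod.ext
        · rfl
        · exact (one_mul (1 : P ⧸ M0)).symm }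
  have hθ : (T.comp ι).ker = ⊤ := by
    refine hKgen _ fun x hx => ?_
    rw [MonoidHom.mem_ker]
    refine coprime_eq_one (a := p) (b := orderOf x) ((Nat.Prime.coprime_iff_not_dvd hpp).2 hx) ?_ ?_
    · have := pow_card_eq_one' (G := β.ker) (x := (T.comp ι) x)
      rwa [hcardC] at this
    · rw [← map_pow, pow_orderOf_eq_one, map_one]
  have hC1 : β.ker ≠ ⊥ := by
    intro h
    rw [h, Subgroup.card_bot] at hcardC
    exact hpp.one_lt.ne hcardC
  obtain ⟨⟨c, hc⟩, hc0⟩ := Subgroup.ne_bot_iff_exists_ne_one.1 hC1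
  have hc1 : c ≠ 1 := fun h => hc0 (Subtype.ext h)
  obtain ⟨x, hxE, hxT⟩ := (hSmem c).1 (hCS hc)
  have hxK : x ∈ K := by
    have h2 : QuotientGroup.mk' K x = β c := hxE
    rw [MonoidHom.mem_ker.1 hc] at h2
    exact (QuotientGroup.eq_one_iff x).1 h2
  have h2 : T (ι ⟨x, hxK⟩) = 1 := by
    have : (⟨x, hxK⟩ : K) ∈ (T.comp ι).ker := by rw [hθ]; exact Subgroup.mem_top _
    exact this
  have h3 : (⟨(x, c), hxE⟩ : E) = ι ⟨x, hxK⟩ * ⟨(1, c), h1E c hc⟩ := by
    apply Subtype.ext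
    apply Prod.ext
    · exact (mul_one x).symm
    · exact (one_mul c).symm
  rw [h3, map_mul, h2, one_mul, hT c hc] at hxT
  have h4 : (⟨c, hc⟩ : β.ker) = 1 := by
    refine coprime_eq_one hpm ?_ hxT
    have := pow_card_eq_one' (G := β.ker) (x := ⟨c, hc⟩)
    rwa [hcardC] at this
  exact hc1 (congrArg Subtype.val h4)

end Main

/-- (TAT) -/
theorem t_TAT : S_TAT.{u} := by
  intro G _ _ p P N hp hP hidx hN hM
  haveI := Fact.mk hp
  classical
  set gens : Set G := {x | x ∈ N ∧ ¬ p ∣ orderOf x} with hgens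
  set K : Subgroup G := Subgroup.closure gens with hK
  have hKN : K ≤ N := (Subgroup.closure_le _).2 fun x hx => hx.1
  have hKn : K.Normal := by
    refine ⟨fun x hx g => ?_⟩
    have h1 : K.map (MulAut.conj g).toMonoidHom ≤ K := by
      rw [hK, MonoidHom.map_closure]
      refine Subgroup.closure_mono ?_
      rintro _ ⟨y, hy, rfl⟩
      refine ⟨hN.conj_mem y hy.1 g, ?_⟩
      have : orderOf ((MulAut.conj g).toMonoidHom y) = orderOf y :=
        orderOf_injective _ (MulAut.conj g).injective y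
      rw [this]
      exact hy.2
    exact h1 ⟨x, hx, rfl⟩
  have hpow : ∀ x ∈ N, ∃ k : ℕ, x ^ p ^ k ∈ K := by
    intro x hx
    obtain ⟨k, r, hr, hxr⟩ := Nat.exists_eq_pow_mul_and_not_dvd (orderOf_pos x).ne' p hp.ne_one
    refine ⟨k, Subgroup.subset_closure ⟨N.pow_mem hx _, ?_⟩⟩
    rw [orderOf_pow, hxr, Nat.gcd_mul_right_left, Nat.mul_div_cancel_left _ (pow_pos hp.pos k)]
    exact hr
  have hmain : K.subgroupOf P = ⊥ := by
    refine main hP hidx ?_ ?_
    · intro L hL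
      rw [eq_top_iff]
      rintro ⟨x, hx⟩ _
      have h1 : K ≤ L.map K.subtype := by
        refine (Subgroup.closure_le _).2 fun y hy => ?_
        have hyK : y ∈ K := Subgroup.subset_closure hy
        refine ⟨⟨y, hyK⟩, hL _ ?_, rfl⟩
        rw [Subgroup.orderOf_mk]
        exact hy.2
      obtain ⟨y, hy, hy2⟩ := h1 hx
      have : y = ⟨x, hx⟩ := Subtype.ext hy2
      rwa [← this]
    · intro M h1 h2 h3
      exact (inf_le_inf_right P hKN).trans (hM M h1 h2 h3)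
  refine ⟨K, hKn, hKN, ?_, hpow⟩
  intro hdvd
  obtain ⟨x, hx⟩ := exists_prime_orderOf_dvd_card' (G := K) p hdvd
  have hz : IsPGroup p (Subgroup.zpowers (x : G)) := by
    rw [IsPGroup.iff_card]
    refine ⟨1, ?_⟩
    rw [Nat.card_zpowers, Subgroup.orderOf_coe, hx, pow_one]
  obtain ⟨R, hR⟩ := hz.exists_le_sylow
  obtain ⟨g, hg⟩ := MulAction.exists_smul_eq G R (hP.toSylow hidx)
  have hxR : (x : G) ∈ (R : Subgroup G) := hR (Subgroup.mem_zpowers _)
  have h1 : g * x * g⁻¹ ∈ P := by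
    have h2 : g * x * g⁻¹ ∈ ((g • R : Sylow p G) : Subgroup G) := by
      rw [Sylow.coe_subgroup_smul]
      exact ⟨x, hxR, rfl⟩
    rw [hg] at h2
    exact h2
  have h2 : g * x * g⁻¹ ∈ K := hKn.conj_mem _ x.2 g
  have h3 : (⟨_, h1⟩ : P) ∈ K.subgroupOf P := Subgroup.mem_subgroupOf.2 h2
  rw [hmain, Subgroup.mem_bot] at h3
  have h4 : g * (x : G) * g⁻¹ = 1 := congrArg Subtype.val h3
  have h5 : (x : G) = 1 := by
    have : (x : G) = g⁻¹ * (g * x * g⁻¹) * g := by group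
    rw [this, h4]
    group
  have h6 : x = 1 := Subtype.ext h5
  rw [h6, orderOf_one] at hx
  exact hp.one_lt.ne hx

end Pool.Agent.J4H97.MX
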